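import Pool.Agent.H867.FT.Gen2

/-!
# NYO: the norm of `y₀` times the discriminant
-/

set_option autoImplicit false

namespace Pool.Agent.H638.FT867NYO

open Pool.Agent.H867.FT Module Matrix
open scoped nonZeroDivisors

/-- expansion of the trace form in a basis -/
theorem trace_expand {L K : Type} [Field L] [Field K] [Algebra L K] (b : Basis (Fin 3) L K)
    (y z : K) (u : K) :
    Algebra.trace L K (y * u * z) =
      ∑ k, b.repr u k * ∑ l, b.repr (y * b k) l * Algebra.trace L K (b l * z) := by
  have h1 : ∀ k, y * b k = ∑ l, b.repr (y * b k) l • b l := fun k => (b.sum_repr _).symm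
  have h2 : u = ∑ k, b.repr u k • b k := (b.sum_repr u).symm
  have h3 : y * u * z = ∑ k, b.repr u k • ∑ l, b.repr (y * b k) l • (b l * z) := by
    have h4 : y * u = ∑ k, b.repr u k • (y * b k) := by
      conv_lhs => rw [h2]
      rw [Finset.mul_sum]
      refine Finset.sum_congr rfl fun k _ => ?_
      rw [mul_smul_comm]
    rw [h4, Finset.sum_mul]
    refine Finset.sum_congr rfl fun k _ => ?_
    rw [smul_mul_assoc]
    congr 1
    conv_lhs => rw [h1 k]
    rw [Finset.sum_mul]
    refine Finset.sum_congr rfl fun l _ => ?_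
    rw [smul_mul_assoc]
  rw [h3, map_sum]
  refine Finset.sum_congr rfl fun k _ => ?_
  rw [map_smul, smul_eq_mul, map_sum]
  congr 1
  refine Finset.sum_congr rfl fun l _ => ?_
  rw [map_smul, smul_eq_mul]

theorem nyo : Pool.Agent.H867.FT.S_NYO := by
  intro P R L K _ _ _ _ _ _ _ _ _ _ _ _ _ _ _ _ _ bs C a b c d x y₀ ω θ hC hcub
  classical
  have hPL : Function.Injective (algebraMap P L) := IsFractionRing.injective P L
  have hRK : Function.Injective (algebraMap R K) := IsFractionRing.injective R K
  have hPK : ∀ g : P, algebraMap P K g = algebraMap L K (algebraMap P L g) :=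
    fun g => IsScalarTower.algebraMap_apply P L K g
  have hPK' : ∀ g : P, algebraMap R K (algebraMap P R g) = algebraMap P K g :=
    fun g => (IsScalarTower.algebraMap_apply P R K g).symm
  have : Module.Finite P R := Module.Finite.of_basis bs
  have : Module.Free P R := Module.Free.of_basis bs
  have : Nontrivial R := inferInstance
  have : FaithfulSMul P R := inferInstance
  have : Algebra.IsIntegral P R := inferInstance
  have : Algebra.IsAlgebraic P R := inferInstance
  have : IsLocalization (Algebra.algebraMapSubmonoid R P⁰) K := inferInstance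
  obtain ⟨b', hb'⟩ : ∃ b' : Basis (Fin 3) L K, b' = bs.localizationLocalization L P⁰ K := ⟨_, rfl⟩
  have hb'a : ∀ i, b' i = algebraMap R K (bs i) := by
    intro i; rw [hb']; exact Basis.localizationLocalization_apply L P⁰ K bs i
  have hb'r : ∀ r i, b'.repr (algebraMap R K r) i = algebraMap P L (bs.repr r i) := by
    intro r i; rw [hb']; exact Basis.localizationLocalization_repr_algebraMap L P⁰ K bs r i
  have hdisc : (Algebra.traceMatrix L b').det = algebraMap P L (Algebra.discr P bs) := by
    rw [← Algebra.discr_def, hb']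
    exact Algebra.discr_localizationLocalization P P⁰ K bs
  obtain ⟨T, hT⟩ : ∃ T : K, T = algebraMap R K θ := ⟨_, rfl⟩
  -- the vectors `1, x, θ`
  let u : Fin 3 → K := ![1, x, T]
  let w : Fin 3 → R := ![1, ω, θ]
  let dd : Fin 3 → P := ![1, a, 1]
  have hdu : ∀ i, algebraMap P L (dd i) • u i = algebraMap R K (w i) := by
    intro i
    fin_cases i
    · show algebraMap P L 1 • (1 : K) = algebraMap R K 1
      simp
    · show algebraMap P L a • x = algebraMap R K ω
      rw [Algebra.smul_def, ← hPK, hcub.hω]
    · show algebraMap P L 1 • T = algebraMap R K θ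
      rw [map_one, one_smul, hT]
  -- elements of `C`
  have hCu : ∀ g : Fin 3 → P, y₀ * (∑ i, algebraMap P L (g i) • u i) ∈ C := by
    intro g
    rw [hcub.hC]
    refine ⟨g 0, g 1, g 2, ?_⟩
    rw [Fin.sum_univ_three]
    show y₀ * (algebraMap P L (g 0) • (1 : K) + algebraMap P L (g 1) • x +
      algebraMap P L (g 2) • T) = _
    rw [Algebra.smul_def, Algebra.smul_def, Algebra.smul_def, ← hPK, ← hPK, ← hPK, mul_one, hT]
  have hM : ∀ i j, ∃ g : P, algebraMap P L g = Algebra.trace L K (y₀ * u i * b' j) := by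
    intro i j
    have h1 : y₀ * u i ∈ C := by
      have := hCu (Pi.single i 1)
      have h2 : ∑ k, algebraMap P L ((Pi.single i 1 : Fin 3 → P) k) • u k = u i := by
        rw [Finset.sum_eq_single i]
        · simp
        · intro k _ hk
          rw [Pi.single_eq_of_ne hk, map_zero, zero_smul]
        · intro h; exact absurd (Finset.mem_univ i) h
      rwa [h2] at this
    obtain ⟨g, hg⟩ := (hC _).1 h1 (bs j)
    exact ⟨g, by rw [hg, hb'a]⟩
  choose MP hMP using hM
  -- the dual basis
  have hnd := traceForm_nondegenerate L K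
  obtain ⟨ws, hws⟩ : ∃ ws : Fin 3 → K, ∀ k j, Algebra.trace L K (ws k * b' j) =
      if j = k then 1 else 0 := by
    refine ⟨fun k => (Algebra.traceForm L K).dualBasis hnd b' k, fun k j => ?_⟩
    have := LinearMap.BilinForm.apply_dualBasis_left hnd b' k j
    rwa [Algebra.traceForm_apply] at this
  have hwC : ∀ k, ws k ∈ C := by
    intro k
    rw [hC]
    intro r
    refine ⟨bs.repr r k, ?_⟩
    have h1 : algebraMap R K r = ∑ j, b'.repr (algebraMap R K r) j • b' j := (b'.sum_repr _).symm
    rw [h1, Finset.mul_sum, map_sum]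
    have h2 : ∀ j, Algebra.trace L K (ws k * b'.repr (algebraMap R K r) j • b' j) =
        algebraMap P L (bs.repr r j) * if j = k then 1 else 0 := by
      intro j
      rw [mul_smul_comm, map_smul, hws, smul_eq_mul, hb'r]
    rw [Finset.sum_congr rfl fun j _ => h2 j]
    simp
  have hG : ∀ k, ∃ g : Fin 3 → P, ws k = y₀ * (∑ i, algebraMap P L (g i) • u i) := by
    intro k
    obtain ⟨g₀, g₁, g₂, hg⟩ := (hcub.hC _).1 (hwC k)
    refine ⟨![g₀, g₁, g₂], ?_⟩
    rw [hg, Fin.sum_univ_three]
    show _ = y₀ * (algebraMap P L g₀ • (1 : K) + algebraMap P L g₁ • x + algebraMap P L g₂ • T)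
    rw [Algebra.smul_def, Algebra.smul_def, Algebra.smul_def, ← hPK, ← hPK, ← hPK, mul_one, hT]
  choose G hGk using hG
  have hGM : (Matrix.of G) * (Matrix.of MP) = 1 := by
    ext k j
    apply hPL
    rw [Matrix.mul_apply, map_sum]
    have h1 : ∑ i, algebraMap P L (Matrix.of G k i * Matrix.of MP i j) =
        Algebra.trace L K (ws k * b' j) := by
      have h2 : ws k * b' j = ∑ i, algebraMap P L (G k i) • (y₀ * u i * b' j) := by
        rw [hGk k, Finset.mul_sum, Finset.sum_mul]
        refine Finset.sum_congr rfl fun i _ => ?_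
        rw [mul_smul_comm, smul_mul_assoc]
      rw [h2, map_sum]
      refine Finset.sum_congr rfl fun i _ => ?_
      rw [map_smul, smul_eq_mul, ← hMP, map_mul]
      rfl
    rw [h1, hws, Matrix.one_apply]
    by_cases hjk : j = k
    · rw [if_pos hjk, if_pos hjk.symm, map_one]
    · rw [if_neg hjk, if_neg (Ne.symm hjk), map_zero]
  have hdetM : IsUnit (Matrix.of MP).det := by
    have h1 := congrArg Matrix.det hGM
    rw [Matrix.det_mul, Matrix.det_one] at h1
    exact IsUnit.of_mul_eq_one _ (by rw [mul_comm]; exact h1)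
  -- the change of basis from `1, ω, θ`
  have hgen : ∀ r : R, ∃ g : Fin 3 → P, r = ∑ i, g i • w i := by
    intro r
    obtain ⟨r₀, r₁, r₂, hr⟩ := hcub.gen r
    refine ⟨![r₀, r₁, r₂], ?_⟩
    rw [hr, Fin.sum_univ_three]
    show _ = r₀ • (1 : R) + r₁ • ω + r₂ • θ
    rw [Algebra.algebraMap_eq_smul_one]
  choose H hH using fun k => hgen (bs k)
  obtain ⟨Q, hQ⟩ : ∃ Q : Matrix (Fin 3) (Fin 3) P, Q = Matrix.of fun i k => bs.repr (w i) k :=
    ⟨_, rfl⟩
  have hHQ : (Matrix.of H) * Q = 1 := by
    ext k m
    rw [Matrix.mul_apply, hQ]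
    have h1 : ∑ l, Matrix.of H k l * (Matrix.of fun i k => bs.repr (w i) k) l m =
        bs.repr (∑ i, H k i • w i) m := by
      rw [map_sum, Finsupp.finsetSum_apply]
      refine Finset.sum_congr rfl fun l _ => ?_
      rw [map_smul, Finsupp.smul_apply, smul_eq_mul]
      rfl
    rw [h1, ← hH k, Basis.repr_self, Matrix.one_apply, Finsupp.single_apply]
  obtain ⟨q', hq'⟩ : ∃ q' : P, q' * Q.det = 1 := by
    refine ⟨(Matrix.of H).det, ?_⟩
    rw [← Matrix.det_mul, hHQ, Matrix.det_one]
  -- determinants over `L`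
  have hUQ : (Matrix.diagonal fun i => algebraMap P L (dd i)) *
      (Matrix.of fun i k => b'.repr (u i) k) = Q.map (algebraMap P L) := by
    ext i k
    rw [Matrix.diagonal_mul, Matrix.map_apply, hQ]
    show algebraMap P L (dd i) * b'.repr (u i) k = algebraMap P L (bs.repr (w i) k)
    rw [← hb'r, ← hdu, map_smul, Finsupp.smul_apply, smul_eq_mul]
  have hMt : (Matrix.of MP).map (algebraMap P L) = (Matrix.of fun i k => b'.repr (u i) k) *
      ((Algebra.leftMulMatrix b' y₀)ᵀ * Algebra.traceMatrix L b') := by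
    ext i j
    rw [Matrix.map_apply]
    show algebraMap P L (MP i j) = _
    rw [hMP, trace_expand b' y₀ (b' j) (u i), Matrix.mul_apply]
    refine Finset.sum_congr rfl fun k _ => ?_
    rw [Matrix.mul_apply]
    show _ = b'.repr (u i) k * _
    congr 1
    refine Finset.sum_congr rfl fun l _ => ?_
    rw [Matrix.transpose_apply, Algebra.leftMulMatrix_eq_repr_mul, Algebra.traceMatrix_apply,
      Algebra.traceForm_apply]
  have e1 := congrArg Matrix.det hUQ
  have e2 := congrArg Matrix.det hMt
  rw [Matrix.det_mul, Matrix.det_diagonal, Fin.prod_univ_three] at e1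
  have hdd : algebraMap P L (dd 0) * algebraMap P L (dd 1) * algebraMap P L (dd 2) =
      algebraMap P L a := by
    show algebraMap P L 1 * algebraMap P L a * algebraMap P L 1 = algebraMap P L a
    simp
  rw [hdd] at e1
  rw [Matrix.det_mul, Matrix.det_mul, Matrix.det_transpose, ← Algebra.norm_eq_matrix_det,
    hdisc] at e2
  have e3 : ∀ N : Matrix (Fin 3) (Fin 3) P, (N.map (algebraMap P L)).det =
      algebraMap P L N.det := by
    intro N
    exact ((algebraMap P L).map_det N).symm
  rw [e3] at e1 e2
  refine ⟨q' * (Matrix.of MP).det, ?_, ?_⟩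
  · exact (IsUnit.of_mul_eq_one _ hq').mul hdetM
  · have e4 : algebraMap P L q' * algebraMap P L Q.det = 1 := by
      rw [← map_mul, hq', map_one]
    rw [map_mul, map_mul, e2]
    linear_combination (-(Algebra.norm L y₀ * algebraMap P L (Algebra.discr P bs))) * e4 -
      (Algebra.norm L y₀ * algebraMap P L (Algebra.discr P bs) * algebraMap P L q') * e1

end Pool.Agent.H638.FT867NYO
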