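import Pool.Agent.H252.EL.Iface

/-!
# EXT: traces of the limit algebra as limits of point evaluations
-/

set_option autoImplicit false
set_option linter.unusedSectionVars false
set_option linter.unusedSimpArgs false

noncomputable section

namespace Pool.Agent.H638.ELEXT

open Filter Topology Matrix
open scoped ENNReal NNReal Matrix.Norms.L2Operator
open Pool.Agent.H188R3 (IsLim norm_map_inj norm_map_le')
open Pool.Agent.H252.EL

section gen

variable {A : ℕ → Type} [∀ n, CStarAlgebra (A n)] {φ : ∀ n, A n →⋆ₐ[ℂ] A (n + 1)}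
variable {L : Type} [CStarAlgebra L] {j : ∀ n, A n →⋆ₐ[ℂ] L}

/-- a property preserved by the connecting maps can be pushed forward -/
lemma push (hL : IsLim φ j) (Pr : ∀ n, A n → Prop) (hP : ∀ n x, Pr n x → Pr (n + 1) (φ n x))
    {n0 : ℕ} {x : A n0} (hx : Pr n0 x) (n : ℕ) (hn : n0 ≤ n) :
    ∃ x' : A n, j n x' = j n0 x ∧ Pr n x' := by
  induction n, hn using Nat.le_induction with
  | base => exact ⟨x, rfl, hx⟩
  | succ n hn ih =>
    obtain ⟨x', h1, h2⟩ := ih
    exact ⟨φ n x', by rw [hL.comp, h1], hP n x' h2⟩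

lemma norm_j (hL : IsLim φ j) (n : ℕ) (x : A n) : ‖j n x‖ = ‖x‖ :=
  norm_map_inj (j n) (hL.inj n) x

/-- approximating sequences -/
lemma exists_approx (hL : IsLim φ j) (y : L) : ∃ a : ∀ n, A n,
    Tendsto (fun n => ‖y - j n (a n)‖) atTop (𝓝 0) ∧ ∀ n, ‖a n‖ ≤ 2 * ‖y‖ + 1 := by
  have hb : ∀ n, BddBelow (Set.range fun x : A n => ‖y - j n x‖) := fun n =>
    ⟨0, by rintro _ ⟨x, rfl⟩; exact norm_nonneg _⟩
  have h1 : ∀ n : ℕ, ∃ x : A n, ‖y - j n x‖ < (⨅ x : A n, ‖y - j n x‖) + 1 / ((n : ℝ) + 1) := by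
    intro n
    have h2 : (⨅ x : A n, ‖y - j n x‖) < (⨅ x : A n, ‖y - j n x‖) + 1 / ((n : ℝ) + 1) := by
      have : (0 : ℝ) < 1 / ((n : ℝ) + 1) := by positivity
      linarith
    exact exists_lt_of_ciInf_lt h2
  choose a ha using h1
  refine ⟨a, ?_, ?_⟩
  · rw [Metric.tendsto_atTop]
    intro ε hε
    obtain ⟨n0, x0, hx0⟩ := hL.dense y (ε / 2) (by positivity)
    obtain ⟨N, hN⟩ := exists_nat_one_div_lt (half_pos hε)
    refine ⟨max n0 N, fun n hn => ?_⟩
    obtain ⟨x', hx', _⟩ := push hL (fun _ _ => True) (fun _ _ _ => trivial) (x := x0) trivial n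
      ((le_max_left _ _).trans hn)
    rw [Real.dist_eq, sub_zero, abs_of_nonneg (norm_nonneg _)]
    have h3 : (⨅ x : A n, ‖y - j n x‖) ≤ ‖y - j n x'‖ := ciInf_le (hb n) x'
    rw [hx'] at h3
    have h4 : 1 / ((n : ℝ) + 1) ≤ 1 / ((N : ℝ) + 1) := by
      have : (N : ℝ) ≤ n := by exact_mod_cast (le_max_right _ _).trans hn
      exact one_div_le_one_div_of_le (by positivity) (by linarith)
    have := ha n
    linarith
  · intro n
    have h3 : (⨅ x : A n, ‖y - j n x‖) ≤ ‖y - j n 0‖ := ciInf_le (hb n) 0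
    rw [map_zero, sub_zero] at h3
    have h4 : 1 / ((n : ℝ) + 1) ≤ 1 := by
      rw [div_le_one (by positivity)]
      have : (0 : ℝ) ≤ n := Nat.cast_nonneg n
      linarith
    have h5 : ‖j n (a n)‖ ≤ ‖y‖ + ‖y - j n (a n)‖ := by
      have : j n (a n) = y - (y - j n (a n)) := by abel
      calc ‖j n (a n)‖ = ‖y - (y - j n (a n))‖ := by rw [← this]
        _ ≤ _ := norm_sub_le _ _
    rw [norm_j hL] at h5
    have := ha n
    linarith

/-- limits along an ultrafilter -/
lemma exists_ulim (s : ℕ → ℂ) (C : ℝ) (hs : ∀ n, ‖s n‖ ≤ C) :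
    ∃ z, Tendsto s (hyperfilter ℕ : Filter ℕ) (𝓝 z) := by
  obtain ⟨z, _, hz⟩ := (isCompact_closedBall (0 : ℂ) C).ultrafilter_le_nhds
    ((hyperfilter ℕ).map s) (by
      rw [Filter.le_principal_iff]
      refine Filter.mem_map.2 ?_
      filter_upwards with n
      simpa using hs n)
  exact ⟨z, hz⟩

theorem exists_trace_key {L : Type} [CStarAlgebra L] {B : ℕ → Type} [∀ k, CStarAlgebra (B k)]
    (g : ∀ k, B k →⋆ₐ[ℂ] L) (hn : ∀ k (x : B k), ‖g k x‖ = ‖x‖)
    (happ : ∀ y : L, ∃ a : ∀ k, B k, Tendsto (fun k => ‖y - g k (a k)‖) atTop (𝓝 0) ∧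
      ∀ k, ‖a k‖ ≤ 2 * ‖y‖ + 1) (ω : ∀ n, B n → ℂ)
    (hadd : ∀ n x y, ω n (x + y) = ω n x + ω n y) (hsmul : ∀ n (c : ℂ) x, ω n (c • x) = c * ω n x)
    (hle : ∀ n x, ‖ω n x‖ ≤ ‖x‖) (h1 : ∀ n, ω n 1 = 1)
    (hpos : ∀ n x, 0 ≤ (ω n (star x * x)).re ∧ (ω n (star x * x)).im = 0)
    (htr : ∀ n x y, ω n (x * y) = ω n (y * x)) :
    ∃ τ ∈ TracialStates L, ∀ (y : L) (x : ∀ n, B n),
      Tendsto (fun n => ‖y - g n (x n)‖) atTop (𝓝 0) →
      Tendsto (fun n => ω n (x n)) (hyperfilter ℕ : Filter ℕ) (𝓝 (τ y)) := by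
  choose a ha hab using happ
  have hbd : ∀ y n, ‖ω n (a y n)‖ ≤ 2 * ‖y‖ + 1 := fun y n => (hle n _).trans (hab y n)
  choose τ hτ using fun y => exists_ulim (fun n => ω n (a y n)) _ (hbd y)
  have hU : (hyperfilter ℕ : Filter ℕ) ≤ atTop := by
    rw [← Nat.cofinite_eq_atTop]; exact hyperfilter_le_cofinite
  have hsub : ∀ n x y, ω n (x - y) = ω n x - ω n y := by
    intro n x y
    have h2 := hadd n (x - y) y
    rw [sub_add_cancel] at h2
    rw [h2]; ring
  have key : ∀ (y : L) (x : ∀ n, B n), Tendsto (fun n => ‖y - g n (x n)‖) atTop (𝓝 0) →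
      Tendsto (fun n => ω n (x n)) (hyperfilter ℕ : Filter ℕ) (𝓝 (τ y)) := by
    intro y x hx
    have h2 : Tendsto (fun n => ω n (x n) - ω n (a y n)) (hyperfilter ℕ : Filter ℕ) (𝓝 0) := by
      rw [tendsto_zero_iff_norm_tendsto_zero]
      have h3 : Tendsto (fun n => ‖y - g n (x n)‖ + ‖y - g n (a y n)‖)
          (hyperfilter ℕ : Filter ℕ) (𝓝 0) := by
        simpa using ((hx.add (ha y)).mono_left hU)
      refine squeeze_zero (fun n => norm_nonneg _) (fun n => ?_) h3
      rw [← hsub]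
      refine (hle n _).trans ?_
      rw [← hn, map_sub]
      have : g n (x n) - g n (a y n) = -(y - g n (x n)) + (y - g n (a y n)) := by abel
      rw [this]
      refine (norm_add_le _ _).trans ?_
      rw [norm_neg]
    have h4 := h2.add (hτ y)
    simpa using h4
  have tadd : ∀ x y, τ (x + y) = τ x + τ y := by
    intro x y
    refine tendsto_nhds_unique (key (x + y) (fun n => a x n + a y n) ?_) ?_
    · have h3 : Tendsto (fun n => ‖x - g n (a x n)‖ + ‖y - g n (a y n)‖) atTop (𝓝 0) := by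
        simpa using (ha x).add (ha y)
      refine squeeze_zero (fun n => norm_nonneg _) (fun n => ?_) h3
      rw [map_add]
      have : x + y - (g n (a x n) + g n (a y n)) = (x - g n (a x n)) + (y - g n (a y n)) := by abel
      rw [this]; exact norm_add_le _ _
    · simp only [hadd]
      exact (hτ x).add (hτ y)
  have tsmul : ∀ (c : ℂ) x, τ (c • x) = c * τ x := by
    intro c x
    refine tendsto_nhds_unique (key (c • x) (fun n => c • a x n) ?_) ?_
    · have h3 : Tendsto (fun n => ‖c‖ * ‖x - g n (a x n)‖) atTop (𝓝 0) := by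
        simpa using (ha x).const_mul ‖c‖
      refine squeeze_zero (fun n => norm_nonneg _) (fun n => ?_) h3
      rw [map_smul, ← smul_sub, norm_smul]
    · simp only [hsmul]
      exact (hτ x).const_mul c
  have tone : τ 1 = 1 := by
    refine tendsto_nhds_unique (key 1 (fun n => 1) ?_) ?_
    · simp
    · simp only [h1]; exact tendsto_const_nhds
  have hmul : ∀ x y : L, Tendsto (fun n => ‖x * y - g n (a x n * a y n)‖) atTop (𝓝 0) := by
    intro x y
    have h3 : Tendsto (fun n => ‖x - g n (a x n)‖ * ‖y‖ + (2 * ‖x‖ + 1) * ‖y - g n (a y n)‖) atTop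
        (𝓝 0) := by
      simpa using ((ha x).mul_const ‖y‖).add ((ha y).const_mul (2 * ‖x‖ + 1))
    refine squeeze_zero (fun n => norm_nonneg _) (fun n => ?_) h3
    rw [map_mul]
    have : x * y - g n (a x n) * g n (a y n) =
        (x - g n (a x n)) * y + g n (a x n) * (y - g n (a y n)) := by noncomm_ring
    rw [this]
    refine (norm_add_le _ _).trans (add_le_add (norm_mul_le _ _) ?_)
    refine (norm_mul_le _ _).trans ?_
    refine mul_le_mul_of_nonneg_right ?_ (norm_nonneg _)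
    rw [hn]; exact hab x n
  have ttr : ∀ x y, τ (x * y) = τ (y * x) := by
    intro x y
    refine tendsto_nhds_unique (key (x * y) (fun n => a x n * a y n) (hmul x y)) ?_
    simp only [htr _ (a x _)]
    exact key (y * x) (fun n => a y n * a x n) (hmul y x)
  have tpos : ∀ x, 0 ≤ (τ (star x * x)).re ∧ (τ (star x * x)).im = 0 := by
    intro x
    have h2 : Tendsto (fun n => ‖star x * x - g n (star (a x n) * a x n)‖) atTop (𝓝 0) := by
      have h3 : Tendsto (fun n => ‖x - g n (a x n)‖ * ‖x‖ + (2 * ‖x‖ + 1) * ‖x - g n (a x n)‖)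
          atTop (𝓝 0) := by
        simpa using ((ha x).mul_const ‖x‖).add ((ha x).const_mul (2 * ‖x‖ + 1))
      refine squeeze_zero (fun n => norm_nonneg _) (fun n => ?_) h3
      rw [map_mul, map_star]
      have : star x * x - star (g n (a x n)) * g n (a x n) =
          star (x - g n (a x n)) * x + star (g n (a x n)) * (x - g n (a x n)) := by
        rw [star_sub]; noncomm_ring
      rw [this]
      refine (norm_add_le _ _).trans (add_le_add ?_ ?_)
      · refine (norm_mul_le _ _).trans ?_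
        rw [norm_star]
      · refine (norm_mul_le _ _).trans ?_
        refine mul_le_mul_of_nonneg_right ?_ (norm_nonneg _)
        rw [norm_star, hn]; exact hab x n
    have h4 := key _ _ h2
    have h5 := (Complex.continuous_re.tendsto _).comp h4
    have h6 := (Complex.continuous_im.tendsto _).comp h4
    refine ⟨ge_of_tendsto' h5 fun n => (hpos n _).1, ?_⟩
    refine tendsto_nhds_unique h6 ?_
    have : (Complex.im ∘ fun n => ω n (star (a x n) * a x n)) = fun _ => 0 := by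
      funext n; exact (hpos n _).2
    rw [this]; exact tendsto_const_nhds
  have tnorm : ∀ x, ‖τ x‖ ≤ 1 * ‖x‖ := by
    intro x
    rw [one_mul]
    have h3 : Tendsto (fun n => ‖x‖ + ‖x - g n (a x n)‖) (hyperfilter ℕ : Filter ℕ)
        (𝓝 (‖x‖ + 0)) := (tendsto_const_nhds.add (ha x)).mono_left hU
    rw [add_zero] at h3
    refine le_of_tendsto_of_tendsto' (hτ x).norm h3 fun n => ?_
    refine (hle n _).trans ?_
    rw [← hn]
    have : g n (a x n) = x - (x - g n (a x n)) := by abel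
    calc ‖g n (a x n)‖ = ‖x - (x - g n (a x n))‖ := by rw [← this]
      _ ≤ _ := norm_sub_le _ _
  let τl : L →ₗ[ℂ] ℂ :=
    { toFun := τ
      map_add' := tadd
      map_smul' := tsmul }
  exact ⟨StrongDual.toWeakDual (τl.mkContinuous 1 tnorm), ⟨tone, tpos, ttr⟩, key⟩


end gen

lemma norm_entry_le {J : Type} [Fintype J] [DecidableEq J] (N : Matrix J J ℂ) (i : J) :
    ‖N i i‖ ≤ ‖N‖ := by
  have h := Matrix.l2_opNorm_mulVec N (EuclideanSpace.single i 1)
  rw [PiLp.norm_single, norm_one, mul_one] at h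
  refine le_trans ?_ h
  have h2 := EuclideanSpace.norm_sq_eq ((EuclideanSpace.equiv J ℂ).symm
    (N *ᵥ (EuclideanSpace.single i (1 : ℂ)).ofLp))
  have h3 : ((EuclideanSpace.equiv J ℂ).symm
    (N *ᵥ (EuclideanSpace.single i (1 : ℂ)).ofLp)) i = N i i := by
    show (N *ᵥ (EuclideanSpace.single i (1 : ℂ)).ofLp) i = N i i
    simp [Matrix.mulVec, dotProduct]
  refine le_of_sq_le_sq ?_ (norm_nonneg _)
  rw [h2, ← h3]
  exact Finset.single_le_sum (f := fun k => ‖((EuclideanSpace.equiv J ℂ).symm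
    (N *ᵥ (EuclideanSpace.single i (1 : ℂ)).ofLp)) k‖ ^ 2) (fun k _ => by positivity)
    (Finset.mem_univ i)

lemma norm_ntr_le {J : Type} [Fintype J] [DecidableEq J] [Nonempty J] (N : Matrix J J ℂ) :
    ‖ntr N‖ ≤ ‖N‖ := by
  unfold ntr
  rw [norm_mul, norm_inv, Complex.norm_natCast, Matrix.trace]
  have h1 : ‖∑ i, N.diag i‖ ≤ Fintype.card J * ‖N‖ := by
    refine (norm_sum_le _ _).trans ?_
    refine (Finset.sum_le_card_nsmul _ _ ‖N‖ fun i _ => norm_entry_le N i).trans ?_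
    rw [nsmul_eq_mul, Finset.card_univ]
  have h2 : (0 : ℝ) < Fintype.card J := by exact_mod_cast Fintype.card_pos
  rw [inv_mul_le_iff₀ h2]
  exact h1


/-! ### the point evaluations -/

lemma ntr_add {J : Type} [Fintype J] (a b : Matrix J J ℂ) : ntr (a + b) = ntr a + ntr b := by
  unfold ntr; rw [Matrix.trace_add, mul_add]

lemma ntr_smul {J : Type} [Fintype J] (c : ℂ) (a : Matrix J J ℂ) : ntr (c • a) = c * ntr a := by
  unfold ntr; rw [Matrix.trace_smul, smul_eq_mul]; ring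

lemma ntr_one {J : Type} [Fintype J] [DecidableEq J] [Nonempty J] :
    ntr (1 : Matrix J J ℂ) = 1 := by
  unfold ntr; rw [Matrix.trace_one]
  have : (Fintype.card J : ℂ) ≠ 0 := by exact_mod_cast Fintype.card_ne_zero
  field_simp

lemma ntr_pos {J : Type} [Fintype J] (N : Matrix J J ℂ) :
    0 ≤ (ntr (star N * N)).re ∧ (ntr (star N * N)).im = 0 := by
  have h1 : ntr (star N * N) = (((Fintype.card J : ℝ)⁻¹ * ∑ i, ∑ k, ‖N k i‖ ^ 2 : ℝ) : ℂ) := by
    unfold ntr
    push_cast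
    congr 1
    rw [Matrix.trace]
    refine Finset.sum_congr rfl fun i _ => ?_
    rw [Matrix.diag_apply, Matrix.mul_apply]
    refine Finset.sum_congr rfl fun k _ => ?_
    rw [Matrix.star_apply, Complex.star_def, ← Complex.normSq_eq_conj_mul_self,
      Complex.normSq_eq_norm_sq]
    push_cast; rfl
  rw [h1]
  refine ⟨?_, Complex.ofReal_im _⟩
  rw [Complex.ofReal_re]
  positivity

lemma ntr_comm {J : Type} [Fintype J] (a b : Matrix J J ℂ) : ntr (a * b) = ntr (b * a) := by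
  unfold ntr; rw [Matrix.trace_mul_comm]

/-- the normalised trace of a block diagonal matrix -/
lemma ntr_dgv {Z : Type} {n s : ℕ} (l : Fin s → Z) (f : Z → Matrix (Fin n) (Fin n) ℂ) :
    ntr (dgv l f) = (s : ℂ)⁻¹ * ∑ t, ntr (f (l t)) := by
  have h1 : (dgv l f).trace = ∑ t, (f (l t)).trace := by
    rw [← Matrix.trace_blockDiagonal]
    unfold dgv
    exact (finProdFinEquiv.symm : Fin (n * s) ≃ Fin n × Fin s).sum_comp
      (fun i => (Matrix.blockDiagonal fun t => f (l t)).diag i)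
  unfold ntr
  rw [h1, ← Finset.mul_sum, Fintype.card_fin, Fintype.card_fin]
  push_cast
  rw [mul_inv]
  ring

lemma sz_pos {D : Sys} (hD : D.Good) (i : ℕ) : 0 < D.n i := by
  induction i with
  | zero => exact Nat.one_pos
  | succ i ih =>
    rw [D.n_succ]
    have := hD.lt i
    exact Nat.mul_pos ih (by omega)

/-- the values of the images of the indicator functions -/
def Pr (D : Sys) (b : Bool) (i : ℕ) (x : D.A i) : Prop :=
  ∀ z : D.Z i, ntr (x z) = 1 / 2 + (if z.1 = b then (1 : ℂ) else -1) *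
    (((i : ℂ) + 2) / (4 * ((i : ℂ) + 1)))

lemma pr_zero {D : Sys} (b : Bool) : Pr D b 0 (D.one 0 b) := by
  intro z
  have h : (D.one 0 b) z = if z.1 = b then (1 : Matrix (Fin (D.n 0)) (Fin (D.n 0)) ℂ) else 0 := rfl
  rw [h]
  haveI : Nonempty (Fin (D.n 0)) := ⟨⟨0, Nat.one_pos⟩⟩
  by_cases hz : z.1 = b
  · rw [if_pos hz, if_pos hz, ntr_one]; norm_num
  · rw [if_neg hz, if_neg hz]
    have : ntr (0 : Matrix (Fin (D.n 0)) (Fin (D.n 0)) ℂ) = 0 := by unfold ntr; simp
    rw [this]; norm_num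

lemma l_fst {D : Sys} (i : ℕ) (z : D.Z (i + 1)) (t : Fin (D.S i)) (hm : D.m i + D.c i ≤ D.S i) :
    (D.l i t z).1 = if (t : ℕ) < D.S i - D.c i then z.1 else !z.1 := by
  unfold Sys.l lam
  split_ifs with h1 h2 h2
  · rfl
  · omega
  · rfl
  · rfl

lemma pr_succ {D : Sys} (hD : D.Fine) (b : Bool) (i : ℕ) (x : D.A i) (hx : Pr D b i x) :
    Pr D b (i + 1) (D.φ i x) := by
  intro z
  have hlt := hD.toGood.lt i
  have hc := hD.toGood.c_pos i
  have hS := hD.S_eq i
  rw [D.φ_apply]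
  have h0 : ntr (dgv (fun s => D.l i s z) x) = (D.S i : ℂ)⁻¹ * ∑ t, ntr (x (D.l i t z)) :=
    ntr_dgv (fun s => D.l i s z) x
  refine (Eq.trans h0 ?_)
  have h1 : ∀ t : Fin (D.S i), ntr (x (D.l i t z)) = 1 / 2 +
      (if z.1 = b then (1 : ℂ) else -1) * (if (t : ℕ) < D.S i - D.c i then (1 : ℂ) else -1) *
      (((i : ℂ) + 2) / (4 * ((i : ℂ) + 1))) := by
    intro t
    rw [hx, l_fst i z t (by omega)]
    congr 2
    by_cases h2 : (t : ℕ) < D.S i - D.c i
    · simp [h2]
    · simp only [h2, if_false]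
      cases hz : z.1 <;> cases b <;> simp
  rw [Finset.sum_congr rfl fun t _ => h1 t]
  rw [Finset.sum_add_distrib, ← Finset.sum_mul, ← Finset.mul_sum]
  have h3 : ∑ t : Fin (D.S i), (if (t : ℕ) < D.S i - D.c i then (1 : ℂ) else -1) =
      (D.S i : ℂ) - 2 * D.c i := by
    rw [Fin.sum_univ_eq_sum_range (fun t => if t < D.S i - D.c i then (1 : ℂ) else -1)]
    have h4 : D.S i = (D.S i - D.c i) + D.c i := by omega
    rw [h4, Finset.sum_range_add]
    have h5 : ∀ t ∈ Finset.range (D.S i - D.c i),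
        (if t < (D.S i - D.c i) + D.c i - D.c i then (1 : ℂ) else -1) = 1 := by
      intro t ht
      rw [Finset.mem_range] at ht
      rw [if_pos (by omega)]
    have h6 : ∀ t ∈ Finset.range (D.c i),
        (if (D.S i - D.c i) + t < (D.S i - D.c i) + D.c i - D.c i then (1 : ℂ) else -1) = -1 := by
      intro t ht
      rw [if_neg (by omega)]
    rw [Finset.sum_congr rfl h5, Finset.sum_congr rfl h6]
    simp
    ring
  rw [h3]
  have hS' : (D.S i : ℂ) = 2 * ((i : ℂ) + 2) ^ 2 * D.c i := by rw [hS]; push_cast; ring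
  have hc0 : (D.c i : ℂ) ≠ 0 := by
    have : D.c i ≠ 0 := by omega
    exact_mod_cast this
  have hi1 : ((i : ℂ) + 1) ≠ 0 := by exact_mod_cast Nat.succ_ne_zero i
  have hi2 : ((i : ℂ) + 2) ≠ 0 := by
    have : (i + 2 : ℕ) ≠ 0 := by omega
    exact_mod_cast this
  rw [Finset.sum_const, Finset.card_univ, Fintype.card_fin, nsmul_eq_mul, hS']
  push_cast
  have hi1' : ((i : ℂ) + 1 + 1) ≠ 0 := by
    have : (i + 1 + 1 : ℕ) ≠ 0 := by omega
    exact_mod_cast this
  have e2 : ((i : ℂ) + 1 + 2) = (i : ℂ) + 3 := by ring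
  have e1 : ((i : ℂ) + 1 + 1) = (i : ℂ) + 2 := by ring
  rw [e1, e2]
  field_simp
  ring

theorem s_EXT : Pool.Agent.H252.EL.S_EXT := by
  intro D hD L _ j hL s z hs
  haveI hne : ∀ i, Nonempty (Fin (D.n i)) := fun i => ⟨⟨0, sz_pos hD.toGood i⟩⟩
  have happ : ∀ y : L, ∃ a : ∀ k, D.A (s k),
      Tendsto (fun k => ‖y - j (s k) (a k)‖) atTop (𝓝 0) ∧ ∀ k, ‖a k‖ ≤ 2 * ‖y‖ + 1 := by
    intro y
    obtain ⟨a, ha, hb⟩ := exists_approx hL y
    exact ⟨fun k => a (s k), ha.comp hs.tendsto_atTop, fun k => hb (s k)⟩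
  obtain ⟨τ, hτ, key⟩ := exists_trace_key (B := fun k => D.A (s k)) (fun k => j (s k))
    (fun k x => norm_j hL (s k) x) happ (fun k x => ntr (x (z k)))
    (fun k x y => ntr_add _ _) (fun k c x => ntr_smul _ _)
    (fun k x => (norm_ntr_le _).trans (ContinuousMap.norm_coe_le_norm x (z k)))
    (fun k => ntr_one) (fun k x => ntr_pos _) (fun k x y => ntr_comm _ _)
  refine ⟨τ, hτ, key, ?_⟩
  intro b hb
  choose x' hx' hP using fun k => push hL (Pr D b) (pr_succ hD b) (pr_zero b) (s k) (Nat.zero_le _)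
  have h1 := key (j 0 (D.one 0 b)) x' (by
    have : (fun k => ‖j 0 (D.one 0 b) - j (s k) (x' k)‖) = fun _ => (0 : ℝ) := by
      funext k; rw [hx', sub_self, norm_zero]
    rw [this]; exact tendsto_const_nhds)
  have hU : (hyperfilter ℕ : Filter ℕ) ≤ atTop := by
    rw [← Nat.cofinite_eq_atTop]; exact hyperfilter_le_cofinite
  have h2 : Tendsto (fun k => (1 / 2 + ((s k : ℝ) + 2) / (4 * ((s k : ℝ) + 1)) : ℝ)) atTop
      (𝓝 (3 / 4)) := by
    have h3 : Tendsto (fun n : ℕ => (1 / 2 + ((n : ℝ) + 2) / (4 * ((n : ℝ) + 1)) : ℝ)) atTop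
        (𝓝 (3 / 4)) := by
      have h4 : (fun n : ℕ => (1 / 2 + ((n : ℝ) + 2) / (4 * ((n : ℝ) + 1)) : ℝ)) =
          fun n : ℕ => 3 / 4 + 1 / 4 * (1 / ((n : ℝ) + 1)) := by
        funext n
        have : ((n : ℝ) + 1) ≠ 0 := by positivity
        field_simp
        ring
      rw [h4]
      have h5 := (tendsto_one_div_add_atTop_nhds_zero_nat (𝕜 := ℝ)).const_mul (1 / 4 : ℝ)
      have h6 := h5.const_add (3 / 4 : ℝ)
      simpa using h6
    exact h3.comp hs.tendsto_atTop
  have h3 : Tendsto (fun k => (ntr (x' k (z k))).re) (hyperfilter ℕ : Filter ℕ)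
      (𝓝 (τ (j 0 (D.one 0 b))).re) := (Complex.continuous_re.tendsto _).comp h1
  have h4 : (fun k => (ntr (x' k (z k))).re) =
      fun k => (1 / 2 + ((s k : ℝ) + 2) / (4 * ((s k : ℝ) + 1)) : ℝ) := by
    funext k
    rw [hP k (z k), if_pos (hb k), one_mul]
    have : (1 / 2 + ((s k : ℂ) + 2) / (4 * ((s k : ℂ) + 1)) : ℂ) =
        ((1 / 2 + ((s k : ℝ) + 2) / (4 * ((s k : ℝ) + 1)) : ℝ) : ℂ) := by push_cast; ring
    rw [this, Complex.ofReal_re]
  rw [h4] at h3
  exact tendsto_nhds_unique h3 (h2.mono_left hU)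

end Pool.Agent.H638.ELEXT
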