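import Pool.Agent.H683.SC.Stm

/-!
# Uniform states: the state sum of a program counts proper colorings
-/

set_option autoImplicit false

namespace Pool.Agent.H638.SCUNIF

open Pool.Agent.H683.SC

theorem edg_nn {q : ℕ} : edg (none : Option (Fin q)) none = 1 - q := by
  unfold edg
  rw [Fintype.sum_option]
  simp [Pool.Agent.H683.SC.cmp, wgt]
  ring

theorem edg_ns {q : ℕ} (c : Fin q) : edg none (some c) = 0 := by
  unfold edg
  rw [Fintype.sum_option]
  simp [Pool.Agent.H683.SC.cmp, wgt]

theorem edg_sn {q : ℕ} (c : Fin q) : edg (some c) none = 0 := by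
  unfold edg
  rw [Fintype.sum_option]
  simp [Pool.Agent.H683.SC.cmp, wgt]

theorem edg_ss {q : ℕ} (c d : Fin q) : edg (some c) (some d) = if c = d then 0 else 1 := by
  unfold edg
  rw [Fintype.sum_option]
  by_cases h : c = d
  · subst h
    simp [Pool.Agent.H683.SC.cmp, wgt]
  · rw [if_neg h]
    have : ∀ i : Fin q, (if Pool.Agent.H683.SC.cmp (some i) (some c) ∧ Pool.Agent.H683.SC.cmp (some i) (some d) then
        wgt (some i : Option (Fin q)) else 0) = 0 := by
      intro i
      rw [if_neg]
      rintro ⟨h1, h2⟩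
      simp only [Pool.Agent.H683.SC.cmp, reduceCtorEq, false_or, Option.some.injEq] at h1 h2
      exact h (h1.symm.trans h2)
    rw [Finset.sum_eq_zero fun i _ => this i]
    simp [Pool.Agent.H683.SC.cmp, wgt]

/-- all states are `none` -/
theorem zc_none {q : ℕ} (hs : List Hc) (hh : ∀ h ∈ hs, h.2.1 ≠ h.2.2) :
    Zc q (fun _ => none) (low hs) = (1 - (q : ℤ)) ^ hs.length := by
  induction hs with
  | nil => simp [low, Zc]
  | cons h hs ih =>
    obtain ⟨x, a, b⟩ := h
    have ih' := ih fun h' hm => hh h' (List.mem_cons_of_mem _ hm)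
    have hab : a ≠ b := hh (x, a, b) List.mem_cons_self
    cases x with
    | false =>
      show edg (none : Option (Fin q)) none * Zc q (fun _ => none) (low hs) = _
      rw [edg_nn, ih', List.length_cons, pow_succ']
    | true =>
      show ∑ s : Option (Fin q), wgt s * (edg (Function.update (fun _ => none) a s a)
        (Function.update (fun _ => none) a s b) *
          Zc q (Function.update (fun _ => none) a s) (low hs)) = _
      rw [Fintype.sum_option, Finset.sum_eq_zero, add_zero]
      · have e : Function.update (fun _ : ℕ => (none : Option (Fin q))) a none = fun _ => none :=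
          Function.update_eq_self a _
        rw [e, edg_nn, ih', List.length_cons, pow_succ']
        simp [wgt]
      · intro i _
        rw [Function.update_self, Function.update_of_ne hab.symm, edg_sn]
        simp

/-- the number of extensions of a coloring -/
def cnt (q : ℕ) : (ℕ → Fin q) → List Hc → ℕ
  | _, [] => 1
  | σ, (true, a, b) :: hs => ∑ c : Fin q, if c = σ b then 0 else cnt q (Function.update σ a c) hs
  | σ, (false, a, b) :: hs => if σ a = σ b then 0 else cnt q σ hs

/-- the number of new vertices -/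
def tr (hs : List Hc) : ℕ := (hs.filter fun h => h.1).length

/-- no state is `none` -/
theorem zc_some {q : ℕ} (hs : List Hc) (hh : ∀ h ∈ hs, h.2.1 ≠ h.2.2) (σ : ℕ → Fin q) :
    Zc q (fun i => some (σ i)) (low hs) = (-1) ^ tr hs * (cnt q σ hs : ℤ) := by
  induction hs generalizing σ with
  | nil => simp [low, Zc, cnt, tr]
  | cons h hs ih =>
    obtain ⟨x, a, b⟩ := h
    have ih' := ih fun h' hm => hh h' (List.mem_cons_of_mem _ hm)
    have hab : a ≠ b := hh (x, a, b) List.mem_cons_self
    cases x with
    | false =>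
      show edg (some (σ a)) (some (σ b)) * Zc q (fun i => some (σ i)) (low hs) = _
      rw [edg_ss, ih']
      have e : tr ((false, a, b) :: hs) = tr hs := rfl
      rw [e]
      show _ = (-1) ^ tr hs * (((if σ a = σ b then 0 else cnt q σ hs : ℕ)) : ℤ)
      split_ifs <;> simp
    | true =>
      show ∑ s : Option (Fin q), wgt s * (edg (Function.update (fun i => some (σ i)) a s a)
        (Function.update (fun i => some (σ i)) a s b) *
          Zc q (Function.update (fun i => some (σ i)) a s) (low hs)) = _
      rw [Fintype.sum_option, Function.update_self, Function.update_of_ne hab.symm, edg_ns]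
      have e : tr ((true, a, b) :: hs) = tr hs + 1 := by
        simp [tr]
      rw [e]
      show _ = (-1) ^ (tr hs + 1) *
        (((∑ c : Fin q, if c = σ b then 0 else cnt q (Function.update σ a c) hs : ℕ)) : ℤ)
      rw [zero_mul, mul_zero, zero_add, Nat.cast_sum, Finset.mul_sum]
      refine Finset.sum_congr rfl fun c _ => ?_
      have e2 : Function.update (fun i => some (σ i)) a (some c) =
          fun i => some (Function.update σ a c i) := by
        funext i
        by_cases hi : i = a
        · subst hi
          simp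
        · simp [Function.update_of_ne hi]
      rw [Function.update_self, Function.update_of_ne hab.symm, edg_ss, e2, ih']
      split_ifs <;> simp [wgt, pow_succ]

theorem cnt_pos {q : ℕ} (hs : List Hc) (σ : ℕ → Fin q) : 0 < cnt q σ hs ↔ ∃ τ, Pool.Agent.H683.SC.Ext q σ hs τ := by
  induction hs generalizing σ with
  | nil => simp [cnt, Pool.Agent.H683.SC.Ext]
  | cons h hs ih =>
    obtain ⟨x, a, b⟩ := h
    cases x with
    | false =>
      show 0 < (if σ a = σ b then 0 else cnt q σ hs) ↔ ∃ τ, σ a ≠ σ b ∧ Pool.Agent.H683.SC.Ext q σ hs τ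
      split_ifs with h
      · simp [h]
      · rw [ih]
        simp [h]
    | true =>
      show 0 < (∑ c : Fin q, if c = σ b then 0 else cnt q (Function.update σ a c) hs) ↔
        ∃ τ, ∃ c, c ≠ σ b ∧ Pool.Agent.H683.SC.Ext q (Function.update σ a c) hs τ
      rw [Finset.sum_pos_iff]
      constructor
      · rintro ⟨c, -, hc⟩
        by_cases h : c = σ b
        · rw [if_pos h] at hc
          exact absurd hc (lt_irrefl 0)
        · rw [if_neg h, ih] at hc
          obtain ⟨τ, hτ⟩ := hc
          exact ⟨τ, c, h, hτ⟩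
      · rintro ⟨τ, c, h, hτ⟩
        refine ⟨c, Finset.mem_univ c, ?_⟩
        rw [if_neg h, ih]
        exact ⟨τ, hτ⟩

theorem UNIF : S_UNIF := by
  intro q hs hh
  rw [Fintype.sum_option, zc_none hs hh]
  have e : ∀ c : Fin q, wgt (some c) * Zc q (fun _ => some c) (low hs) =
      -((-1) ^ tr hs) * (cnt q (fun _ => c) hs : ℤ) := by
    intro c
    rw [zc_some hs hh fun _ => c]
    simp [wgt]
  rw [Finset.sum_congr rfl fun c _ => e c, ← Finset.mul_sum, ← Nat.cast_sum]
  have h1 : wgt (none : Option (Fin q)) = 1 := by simp [wgt]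
  rw [h1, one_mul]
  have h2 : (-((-1 : ℤ) ^ tr hs)) ≠ 0 := neg_ne_zero.2 (pow_ne_zero _ (by norm_num))
  constructor
  · intro h
    have h3 : (∑ c : Fin q, cnt q (fun _ => c) hs) ≠ 0 := by
      intro h4
      rw [h4] at h
      simp at h
    obtain ⟨c, -, hc⟩ := Finset.sum_pos_iff.1 (Nat.pos_of_ne_zero h3)
    obtain ⟨τ, hτ⟩ := (cnt_pos hs _).1 hc
    exact ⟨c, τ, hτ⟩
  · rintro ⟨c, τ, hτ⟩ h
    have h3 : 0 < ∑ c : Fin q, cnt q (fun _ => c) hs :=
      Finset.sum_pos_iff.2 ⟨c, Finset.mem_univ c, (cnt_pos hs _).2 ⟨τ, hτ⟩⟩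
    have h4 : -((-1 : ℤ) ^ tr hs) * ((∑ c : Fin q, cnt q (fun _ => c) hs : ℕ) : ℤ) = 0 := by
      linarith
    rcases mul_eq_zero.1 h4 with h5 | h5
    · exact h2 h5
    · have h6 : (∑ c : Fin q, cnt q (fun _ => c) hs) = 0 := by exact_mod_cast h5
      omega

end Pool.Agent.H638.SCUNIF
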